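import Pool.Agent.Helper23.TW.MX
import Pool.Agent.Helper8.CR.P4

/-! # Sums of a fixed character over the primes: proof of `StmtFX` -/

set_option autoImplicit false

open Finset Filter Topology

open scoped Classical

namespace Pool.Agent.Helper23.TW

open Pool.Agent.Helper88.CR (LL ch rg)

lemma fx_tail (h : ℕ → ℝ) (hs : Summable h) (h0 : ∀ n, 0 ≤ h n) (z K : ℕ) :
    ∑ n ∈ Ioc z K, h n ≤ ∑' k, h (k + (z + 1)) := by
  have hs' : Summable fun k => h (k + (z + 1)) := (summable_nat_add_iff (z + 1)).mpr hs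
  have e : ∑ n ∈ Ioc z K, h n = ∑ i ∈ range (K - z), h (i + (z + 1)) := by
    have h2 : Ioc z K = Ico (z + 1) (K + 1) := by
      ext n
      simp only [mem_Ioc, mem_Ico]
      omega
    have h3 : K + 1 - (z + 1) = K - z := by omega
    rw [h2, sum_Ico_eq_sum_range, h3]
    refine sum_congr rfl fun i _ => ?_
    rw [add_comm]
  rw [e]
  exact hs'.sum_le_tsum _ (fun i _ => h0 _)

/-- `Λ(n)/n` at the integers which are not primes -/
noncomputable def fxH (n : ℕ) : ℝ :=
  (if n.Prime then 0 else ArithmeticFunction.vonMangoldt n) / n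

lemma fxH_nonneg (n : ℕ) : 0 ≤ fxH n := by
  unfold fxH
  refine div_nonneg ?_ (Nat.cast_nonneg n)
  split_ifs
  · exact le_rfl
  · exact ArithmeticFunction.vonMangoldt_nonneg

lemma fxH_summable : Summable fxH := by
  have h := ArithmeticFunction.vonMangoldt.summable_residueClass_non_primes_div (q := 1) (a := 0)
  refine h.congr fun n => ?_
  unfold fxH
  have e : ArithmeticFunction.vonMangoldt.residueClass (0 : ZMod 1) n
      = ArithmeticFunction.vonMangoldt n := by
    unfold ArithmeticFunction.vonMangoldt.residueClass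
    rw [Set.indicator_of_mem]
    exact Subsingleton.elim _ _
  rw [e]

/-- the weight `n^(-δ)/log n` -/
noncomputable def fxW (δ : ℝ) (n : ℕ) : ℝ := (n : ℝ) ^ (-δ) / Real.log n

lemma fxW_nonneg (δ : ℝ) (n : ℕ) : 0 ≤ fxW δ n :=
  div_nonneg (by positivity) (Real.log_natCast_nonneg n)

lemma fxW_le (δ : ℝ) (hδ : 0 ≤ δ) (n : ℕ) (hn : 1 ≤ n) : fxW δ n ≤ 1 / Real.log n := by
  unfold fxW
  refine div_le_div_of_nonneg_right ?_ (Real.log_natCast_nonneg n)
  exact Real.rpow_le_one_of_one_le_of_nonpos (by exact_mod_cast hn) (by linarith)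

lemma fxW_anti (δ : ℝ) (hδ : 0 ≤ δ) (n : ℕ) (hn : 2 ≤ n) : fxW δ (n + 1) ≤ fxW δ n := by
  unfold fxW
  have hn0 : (0 : ℝ) < n := by exact_mod_cast (by omega : 0 < n)
  have hn2 : (2 : ℝ) ≤ n := by exact_mod_cast hn
  have hlog : 0 < Real.log n := Real.log_pos (by linarith)
  refine div_le_div₀ (by positivity) ?_ hlog ?_
  · exact Real.rpow_le_rpow_of_nonpos hn0 (by push_cast; linarith) (by linarith)
  · exact Real.log_le_log hn0 (by push_cast; linarith)

/-- the terms -/
noncomputable def fxg {q : ℕ} (χ : DirichletCharacter ℂ q) (δ : ℝ) (z n : ℕ) : ℂ :=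
  if n.Prime ∧ z < n then χ (n : ZMod q) * (((n : ℝ) ^ (-(1 + δ)) : ℝ) : ℂ) else 0

lemma fx_part (q : ℕ) [NeZero q] (χ : DirichletCharacter ℂ q) (B : ℝ)
    (hB : ∀ N : ℕ, ‖∑ n ∈ Icc 1 N,
      χ n * ((ArithmeticFunction.vonMangoldt n : ℝ) : ℂ) / n‖ ≤ B)
    (δ : ℝ) (hδ : 0 < δ) (z : ℕ) (hz : 3 ≤ z) (K : ℕ) :
    ‖∑ n ∈ range K, fxg χ δ z n‖ ≤ 2 * B / Real.log z + ∑' k, fxH (k + (z + 1)) := by
  have hlz : 0 < Real.log z := Real.log_pos (by exact_mod_cast (by omega : 1 < z))
  have hB0 : 0 ≤ B := (norm_nonneg _).trans (hB 0)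
  have h1 : ∑ n ∈ range K, fxg χ δ z n
      = ∑ n ∈ Ioc z (K - 1), (χ n * ((ArithmeticFunction.vonMangoldt n : ℝ) : ℂ) / n)
            * (fxW δ n : ℂ)
        - ∑ n ∈ Ioc z (K - 1), (if n.Prime then 0 else
            (χ n * ((ArithmeticFunction.vonMangoldt n : ℝ) : ℂ) / n) * (fxW δ n : ℂ)) := by
    rw [← sum_sub_distrib]
    have h2 : ∑ n ∈ range K, fxg χ δ z n = ∑ n ∈ Ioc z (K - 1), fxg χ δ z n := by
      symm
      apply sum_subset
      · intro n hn
        rw [mem_Ioc] at hn
        rw [mem_range]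
        omega
      · intro n hn hn'
        rw [mem_range] at hn
        rw [mem_Ioc] at hn'
        unfold fxg
        rw [if_neg]
        rintro ⟨_, h⟩
        exact hn' ⟨h, by omega⟩
    rw [h2]
    refine sum_congr rfl fun n hn => ?_
    rw [mem_Ioc] at hn
    unfold fxg
    by_cases hp : n.Prime
    · rw [if_pos ⟨hp, hn.1⟩, if_pos hp, sub_zero, ArithmeticFunction.vonMangoldt_apply_prime hp]
      unfold fxW
      have hn0 : (0 : ℝ) < n := by exact_mod_cast (by omega : 0 < n)
      have hl : Real.log n ≠ 0 := (Real.log_pos (by exact_mod_cast hp.one_lt)).ne'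
      have e : (n : ℝ) ^ (-(1 + δ)) = Real.log n / n * ((n : ℝ) ^ (-δ) / Real.log n) := by
        rw [neg_add, Real.rpow_add hn0, Real.rpow_neg_one]
        field_simp
      rw [e]
      push_cast
      ring
    · rw [if_neg (fun h => hp h.1), if_neg hp, sub_self]
  have h3 : ‖∑ n ∈ Ioc z (K - 1), (χ n * ((ArithmeticFunction.vonMangoldt n : ℝ) : ℂ) / n)
            * (fxW δ n : ℂ)‖ ≤ 2 * B / Real.log z := by
    have h4 : ∀ N, ‖∑ n ∈ Ioc z N, χ n * ((ArithmeticFunction.vonMangoldt n : ℝ) : ℂ) / n‖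
        ≤ 2 * B := by
      intro N
      rcases le_or_gt N z with h | h
      · rw [Ioc_eq_empty (by omega), sum_empty, norm_zero]
        linarith
      · have e : Icc 1 N = Icc 1 z ∪ Ioc z N := by
          ext n
          simp only [mem_union, mem_Icc, mem_Ioc]
          omega
        have hd : Disjoint (Icc 1 z) (Ioc z N) := by
          rw [disjoint_left]
          intro n h1 h2
          simp only [mem_Icc, mem_Ioc] at h1 h2
          omega
        have h5 := hB N
        rw [e, sum_union hd] at h5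
        have h6 := hB z
        have h7 := norm_sub_norm_le
          (∑ n ∈ Ioc z N, χ n * ((ArithmeticFunction.vonMangoldt n : ℝ) : ℂ) / n)
          (-∑ n ∈ Icc 1 z, χ n * ((ArithmeticFunction.vonMangoldt n : ℝ) : ℂ) / n)
        rw [sub_neg_eq_add, norm_neg, add_comm (∑ n ∈ Ioc z N, _)] at h7
        linarith
    have h5 := mx_abel (fun n : ℕ => χ n * ((ArithmeticFunction.vonMangoldt n : ℝ) : ℂ) / n)
      (fxW δ) z (2 * B) h4 (fun n hn => fxW_anti δ hδ.le n (by omega))
      (fun n _ => fxW_nonneg δ n) (K - 1)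
    refine h5.trans ?_
    rw [div_eq_mul_one_div (2 * B)]
    refine mul_le_mul_of_nonneg_left ?_ (by linarith)
    refine (fxW_le δ hδ.le (z + 1) (by omega)).trans ?_
    apply one_div_le_one_div_of_le hlz
    exact Real.log_le_log (by exact_mod_cast (by omega : 0 < z)) (by push_cast; linarith)
  have h6 : ‖∑ n ∈ Ioc z (K - 1), (if n.Prime then 0 else
            (χ n * ((ArithmeticFunction.vonMangoldt n : ℝ) : ℂ) / n) * (fxW δ n : ℂ))‖
      ≤ ∑' k, fxH (k + (z + 1)) := by
    refine (norm_sum_le _ _).trans ?_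
    refine le_trans (sum_le_sum fun n hn => ?_) (fx_tail fxH fxH_summable fxH_nonneg z (K - 1))
    rw [mem_Ioc] at hn
    unfold fxH
    split_ifs with hp
    · simp
    · have hn0 : (0 : ℝ) < n := by exact_mod_cast (by omega : 0 < n)
      have hv : 0 ≤ ArithmeticFunction.vonMangoldt n := ArithmeticFunction.vonMangoldt_nonneg
      have hl : 1 ≤ Real.log n := by
        rw [Real.le_log_iff_exp_le hn0]
        have h4 : (4 : ℝ) ≤ n := by exact_mod_cast (by omega : 4 ≤ n)
        linarith [Real.exp_one_lt_d9]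
      have hw : fxW δ n ≤ 1 := by
        refine (fxW_le δ hδ.le n (by omega)).trans ?_
        rw [div_le_one (by linarith)]
        exact hl
      rw [norm_mul, norm_div, norm_mul, Complex.norm_real, Complex.norm_real,
        Real.norm_of_nonneg hv, Real.norm_of_nonneg (fxW_nonneg δ n), Complex.norm_natCast]
      calc ‖χ (n : ZMod q)‖ * ArithmeticFunction.vonMangoldt n / n * fxW δ n
          ≤ 1 * ArithmeticFunction.vonMangoldt n / n * 1 := by
            have := χ.norm_le_one (n : ZMod q)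
            gcongr
            exact fxW_nonneg δ n
        _ = _ := by ring
  rw [h1]
  exact (norm_sub_le _ _).trans (add_le_add h3 h6)

lemma fx_val {z q : ℕ} [NeZero q] (hqz : q ≤ z) (χ : DirichletCharacter ℂ q) (p : ℕ)
    (hp : p.Prime) :
    DirichletCharacter.changeLevel (dvd_mul_right q (primorial z)) χ
      (p : ZMod (q * primorial z)) = if z < p then χ (p : ZMod q) else 0 := by
  by_cases h : z < p
  · rw [if_pos h]
    have hr : rg z p := by
      refine ⟨hp.ne_zero, fun r hr hrp => ?_⟩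
      have := (Nat.prime_dvd_prime_iff_eq hr hp).1 hrp
      omega
    have hc : Nat.Coprime p (q * primorial z) :=
      (Pool.Agent.Helper8.CR.rg_iff_coprime (NeZero.ne q) hqz hp.ne_zero).1 hr
    have hu : IsUnit (p : ZMod (q * primorial z)) := (ZMod.isUnit_iff_coprime p _).2 hc
    have h1 := DirichletCharacter.changeLevel_eq_cast_of_dvd χ (dvd_mul_right q (primorial z))
      hu.unit
    rw [IsUnit.unit_spec, ZMod.cast_natCast (dvd_mul_right q (primorial z))] at h1
    exact h1
  · rw [if_neg h]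
    refine MulChar.map_nonunit _ fun hu => ?_
    have hc := (ZMod.isUnit_iff_coprime p _).1 hu
    have h1 : p ∣ primorial z := hp.dvd_primorial_iff.2 (by omega)
    have h2 : p ∣ Nat.gcd p (q * primorial z) :=
      Nat.dvd_gcd dvd_rfl (dvd_mul_of_dvd_right h1 q)
    rw [hc] at h2
    exact hp.one_lt.ne' (Nat.dvd_one.1 h2)

lemma fx_main (q : ℕ) [NeZero q] (χ : DirichletCharacter ℂ q) (B : ℝ)
    (hB : ∀ N : ℕ, ‖∑ n ∈ Icc 1 N,
      χ n * ((ArithmeticFunction.vonMangoldt n : ℝ) : ℂ) / n‖ ≤ B)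
    (δ : ℝ) (hδ : 0 < δ) (z : ℕ) (hz : 3 ≤ z) (hqz : q ≤ z) :
    Real.exp (-(2 * B / Real.log z + ∑' k, fxH (k + (z + 1))
      + ∑' k : ℕ, 1 / (((k + (z + 1) : ℕ) : ℝ) ^ 2))) ≤ ‖LL (ch z χ) 0 (1 + ((δ : ℝ) : ℂ))‖ := by
  have hN : NeZero (q * primorial z) := Pool.Agent.Helper8.CR.N_ne
  set χ' := DirichletCharacter.changeLevel (dvd_mul_right q (primorial z)) χ with hχ'
  set s : ℂ := 1 + ((δ : ℝ) : ℂ) with hs
  have hsre : 1 < s.re := by
    rw [hs]
    simp only [Complex.add_re, Complex.one_re, Complex.ofReal_re]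
    linarith
  have hsreal : s = ((1 + δ : ℝ) : ℂ) := by
    rw [hs]
    push_cast
    rfl
  rw [Pool.Agent.Helper8.CR.ll_ch hqz,
    ← DirichletCharacter.LSeries_eulerProduct_exp_log χ' hsre, Complex.norm_exp]
  apply Real.exp_le_exp.mpr
  set u : Nat.Primes → ℂ := fun p => χ' p * (p : ℂ) ^ (-s) with hu
  have hcp : ∀ n : ℕ, n ≠ 0 → (n : ℂ) ^ (-s) = (((n : ℝ) ^ (-(1 + δ)) : ℝ) : ℂ) := by
    intro n _
    rw [Complex.ofReal_cpow (by positivity), hsreal]
    push_cast
    rfl
  have hug : ∀ p : Nat.Primes, u p = fxg χ δ z (p : ℕ) := by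
    intro p
    simp only [hu, hχ']
    rw [fx_val hqz χ p p.2, hcp p p.2.ne_zero]
    unfold fxg
    by_cases h : z < (p : ℕ)
    · rw [if_pos h, if_pos ⟨p.2, h⟩]
    · rw [if_neg h, if_neg (fun h' => h h'.2), zero_mul]
  have hgn : ∀ n : ℕ, ‖fxg χ δ z n‖ ≤ if z < n then 1 / (n : ℝ) else 0 := by
    intro n
    unfold fxg
    by_cases h : n.Prime ∧ z < n
    · rw [if_pos h, if_pos h.2]
      have hn1 : (1 : ℝ) ≤ n := by exact_mod_cast h.1.one_lt.le
      rw [norm_mul, Complex.norm_real, Real.norm_of_nonneg (by positivity)]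
      calc ‖χ (n : ZMod q)‖ * (n : ℝ) ^ (-(1 + δ)) ≤ 1 * (n : ℝ) ^ (-(1 + δ)) :=
            mul_le_mul_of_nonneg_right (χ.norm_le_one _) (by positivity)
        _ = (n : ℝ) ^ (-(1 + δ)) := one_mul _
        _ ≤ (n : ℝ) ^ (-(1 : ℝ)) := Real.rpow_le_rpow_of_exponent_le hn1 (by linarith)
        _ = 1 / n := by rw [Real.rpow_neg_one, one_div]
    · rw [if_neg h, norm_zero]
      split_ifs
      · positivity
      · exact le_rfl
  have hgs : Summable (fun n : ℕ => fxg χ δ z n) := by
    have h1 : Summable (fun n : ℕ => (n : ℝ) ^ (-(1 + δ))) :=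
      Real.summable_nat_rpow.mpr (by linarith)
    refine Summable.of_norm_bounded h1 fun n => ?_
    unfold fxg
    split_ifs
    · rw [norm_mul, Complex.norm_real, Real.norm_of_nonneg (by positivity)]
      calc ‖χ (n : ZMod q)‖ * (n : ℝ) ^ (-(1 + δ)) ≤ 1 * (n : ℝ) ^ (-(1 + δ)) :=
            mul_le_mul_of_nonneg_right (χ.norm_le_one _) (by positivity)
        _ = (n : ℝ) ^ (-(1 + δ)) := one_mul _
    · rw [norm_zero]
      positivity
  have hus : Summable u := by
    have h1 := hgs.comp_injective (i := fun p : Nat.Primes => (p : ℕ)) Subtype.val_injective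
    refine h1.congr fun p => ?_
    rw [hug p]
    rfl
  have hls := DirichletCharacter.summable_neg_log_one_sub_mul_prime_cpow χ' hsre
  have hsplit : (∑' p : Nat.Primes, -Complex.log (1 - u p))
      = ∑' p : Nat.Primes, u p + ∑' p : Nat.Primes, (-Complex.log (1 - u p) - u p) := by
    rw [← hus.tsum_add (hls.sub hus)]
    refine tsum_congr fun p => ?_
    ring
  -- the linear part
  have hlin : ‖∑' p : Nat.Primes, u p‖ ≤ 2 * B / Real.log z + ∑' k, fxH (k + (z + 1)) := by
    have e1 : ∑' p : Nat.Primes, u p = ∑' n : ℕ, fxg χ δ z n := by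
      have e2 : ∑' p : Nat.Primes, u p = ∑' p : {n : ℕ | n.Prime}, fxg χ δ z (p : ℕ) := by
        refine tsum_congr fun p => ?_
        exact hug p
      rw [e2, tsum_subtype {n : ℕ | n.Prime} (fun n => fxg χ δ z n)]
      refine tsum_congr fun n => ?_
      by_cases hp : n.Prime
      · rw [Set.indicator_of_mem]
        exact hp
      · rw [Set.indicator_of_notMem]
        · unfold fxg
          rw [if_neg (fun h => hp h.1)]
        · exact hp
    rw [e1]
    have h1 := hgs.hasSum.tendsto_sum_nat.norm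
    exact le_of_tendsto' h1 (fun K => fx_part q χ B hB δ hδ z hz K)
  -- the quadratic part
  have hz3 : (3 : ℝ) ≤ z := by exact_mod_cast hz
  have hquad : ‖∑' p : Nat.Primes, (-Complex.log (1 - u p) - u p)‖
      ≤ ∑' k : ℕ, 1 / (((k + (z + 1) : ℕ) : ℝ) ^ 2) := by
    set F : ℕ → ℝ := fun n => if z < n then 1 / (n : ℝ) ^ 2 else 0 with hF
    have hr : Summable (fun n : ℕ => 1 / (n : ℝ) ^ 2) := Real.summable_one_div_nat_pow.mpr (by norm_num)
    have hF0 : ∀ n, 0 ≤ F n := by
      intro n
      simp only [hF]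
      split_ifs
      · positivity
      · exact le_rfl
    have hFs : Summable F := by
      refine Summable.of_nonneg_of_le hF0 (fun n => ?_) hr
      simp only [hF]
      split_ifs
      · exact le_rfl
      · positivity
    have hterm : ∀ p : Nat.Primes, ‖-Complex.log (1 - u p) - u p‖ ≤ F p := by
      intro p
      have h1 : ‖u p‖ ≤ if z < (p : ℕ) then 1 / ((p : ℕ) : ℝ) else 0 := by
        rw [hug p]
        exact hgn p
      by_cases h : z < (p : ℕ)
      · rw [if_pos h] at h1
        have hp0 : (3 : ℝ) < (p : ℕ) := by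
          have : (z : ℝ) < (p : ℕ) := by exact_mod_cast h
          linarith
        have h2 : 1 / ((p : ℕ) : ℝ) ≤ 1 / 2 :=
          one_div_le_one_div_of_le (by norm_num) (by linarith)
        have h3 : ‖u p‖ ≤ 1 / 2 := h1.trans h2
        have h4 : ‖-u p‖ < 1 := by
          rw [norm_neg]
          linarith
        have h5 := Complex.norm_log_one_add_sub_self_le h4
        rw [norm_neg] at h5
        have e : -Complex.log (1 - u p) - u p = -(Complex.log (1 + -u p) - -u p) := by
          rw [← sub_eq_add_neg]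
          ring
        rw [e, norm_neg]
        refine h5.trans ?_
        simp only [hF]
        rw [if_pos h]
        have h6 : (1 - ‖u p‖)⁻¹ ≤ 2 := by
          rw [inv_le_comm₀ (by linarith) (by norm_num)]
          linarith
        have h7 : ‖u p‖ ^ 2 ≤ (1 / ((p : ℕ) : ℝ)) ^ 2 := pow_le_pow_left₀ (norm_nonneg _) h1 2
        have h8 : 0 ≤ (1 - ‖u p‖)⁻¹ := inv_nonneg.mpr (by linarith)
        calc ‖u p‖ ^ 2 * (1 - ‖u p‖)⁻¹ / 2 ≤ (1 / ((p : ℕ) : ℝ)) ^ 2 * 2 / 2 := by
              gcongr
          _ = _ := by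
              rw [mul_div_assoc, div_self (by norm_num), mul_one, one_div_pow]
      · rw [if_neg h] at h1
        have h2 : u p = 0 := norm_le_zero_iff.mp h1
        rw [h2]
        simp only [sub_zero, Complex.log_one, neg_zero, norm_zero]
        exact hF0 _
    have hFp : Summable (fun p : Nat.Primes => F p) :=
      hFs.comp_injective (i := fun p : Nat.Primes => (p : ℕ)) Subtype.val_injective
    calc ‖∑' p : Nat.Primes, (-Complex.log (1 - u p) - u p)‖
        ≤ ∑' p : Nat.Primes, F p := tsum_of_norm_bounded hFp.hasSum hterm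
      _ ≤ ∑' n, F n := by
          have := tsum_comp_le_tsum_of_inj hFs hF0
            (i := fun p : Nat.Primes => (p : ℕ)) Subtype.val_injective
          exact this
      _ ≤ _ := by
          refine hFs.tsum_le_of_sum_range_le (fun K => ?_)
          have h1 := fx_tail (fun n : ℕ => 1 / (n : ℝ) ^ 2) hr (fun n => by positivity) z (K - 1)
          refine le_trans (le_of_eq ?_) h1
          have h2 : ∑ n ∈ Ioc z (K - 1), F n = ∑ n ∈ range K, F n := by
            apply sum_subset
            · intro n hn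
              rw [mem_Ioc] at hn
              rw [mem_range]
              omega
            · intro n hn hn'
              rw [mem_range] at hn
              rw [mem_Ioc] at hn'
              simp only [hF]
              rw [if_neg]
              intro h
              exact hn' ⟨h, by omega⟩
          rw [← h2]
          refine sum_congr rfl fun n hn => ?_
          rw [mem_Ioc] at hn
          simp only [hF]
          rw [if_pos hn.1]
  have hfin : ‖∑' p : Nat.Primes, -Complex.log (1 - u p)‖ ≤ 2 * B / Real.log z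
      + ∑' k, fxH (k + (z + 1)) + ∑' k : ℕ, 1 / (((k + (z + 1) : ℕ) : ℝ) ^ 2) := by
    rw [hsplit]
    exact (norm_add_le _ _).trans (add_le_add hlin hquad)
  have h9 := Complex.abs_re_le_norm (∑' p : Nat.Primes, -Complex.log (1 - u p))
  have h10 := neg_abs_le (∑' p : Nat.Primes, -Complex.log (1 - u p)).re
  have h11 : -(2 * B / Real.log z + ∑' k, fxH (k + (z + 1))
      + ∑' k : ℕ, 1 / (((k + (z + 1) : ℕ) : ℝ) ^ 2))
      ≤ (∑' p : Nat.Primes, -Complex.log (1 - u p)).re := by linarith
  exact h11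

theorem fx : StmtFX := by
  intro q _ χ hχ κ hκ
  obtain ⟨B, hB⟩ := mx q χ hχ
  have hlog : Tendsto (fun z : ℕ => Real.log (z : ℝ)) atTop atTop :=
    Real.tendsto_log_atTop.comp tendsto_natCast_atTop_atTop
  have h1 : Tendsto (fun z : ℕ => 2 * B / Real.log z) atTop (𝓝 0) := hlog.const_div_atTop _
  have h2 : Tendsto (fun z : ℕ => ∑' k, fxH (k + (z + 1))) atTop (𝓝 0) :=
    (tendsto_sum_nat_add fxH).comp (tendsto_add_atTop_nat 1)
  have h3 : Tendsto (fun z : ℕ => ∑' k : ℕ, 1 / (((k + (z + 1) : ℕ) : ℝ) ^ 2)) atTop (𝓝 0) :=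
    (tendsto_sum_nat_add (fun n : ℕ => 1 / ((n : ℝ) ^ 2))).comp (tendsto_add_atTop_nat 1)
  have h4 : Tendsto (fun z : ℕ => 2 * B / Real.log z + ∑' k, fxH (k + (z + 1))
      + ∑' k : ℕ, 1 / (((k + (z + 1) : ℕ) : ℝ) ^ 2)) atTop (𝓝 0) := by
    have := (h1.add h2).add h3
    rw [add_zero, add_zero] at this
    exact this
  have h5 := h4.eventually (gt_mem_nhds (Real.log_pos (by norm_num : (1 : ℝ) < 2)))
  obtain ⟨z1, hz1⟩ := eventually_atTop.mp h5
  refine ⟨max z1 (max 3 q), fun z hz => ?_⟩
  have hz3 : 3 ≤ z := (le_max_left _ _).trans ((le_max_right _ _).trans hz)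
  have hzq : q ≤ z := (le_max_right _ _).trans ((le_max_right _ _).trans hz)
  have hlz : 0 < Real.log z := Real.log_pos (by exact_mod_cast (by omega : 1 < z))
  have h6 := fx_main q χ B hB (κ / Real.log z) (by positivity) z hz3 hzq
  refine le_trans ?_ h6
  have h7 := hz1 z ((le_max_left _ _).trans hz)
  calc (1 : ℝ) / 2 = Real.exp (-Real.log 2) := by
        rw [Real.exp_neg, Real.exp_log (by norm_num), one_div]
    _ ≤ _ := by
        apply Real.exp_le_exp.mpr
        linarith

end Pool.Agent.Helper23.TW
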