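import Pool.Agent.Helper23.TW.RT
import Pool.Agent.Helper88.CG.MainA

set_option autoImplicit false

namespace Pool.Agent.Helper23.TW

theorem mRT : StmtRT := rt Pool.Agent.Helper88.CG.mRB

end Pool.Agent.Helper23.TW
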