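import Pool.Agent.Helper57.TW.Goals
import Pool.Agent.Helper76.TW.Goals
import Pool.Agent.Helper23.TW.RTM
import Pool.Agent.Helper23.TW.FX

/-! Names: the packets proved in `Helper23/TW` in the form of the goal files. -/

namespace Pool.Agent.Helper23.TW

theorem mRT76 : Pool.Agent.Helper76.TW.StmtRT := mRT

theorem mMX : Pool.Agent.Helper57.TW.StmtMX := mx

theorem mR0 : Pool.Agent.Helper57.TW.StmtR0 := fx

end Pool.Agent.Helper23.TW
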