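import Pool.Agent.Helper88.CG.Goals

/-! # Relative equidistribution of the primes modulo `k D`: statement -/

set_option autoImplicit false

open Finset Filter Topology

open scoped Classical

namespace Pool.Agent.Helper23.TW

open Pool.Agent.Helper88.PP (SS)
open Pool.Agent.Helper88.CG (th)

/-- The relative equidistribution of the primes modulo `k D`, `D ≤ R` squarefree with all prime
factors `> z`, with weights `L^ω(D)`. -/
def StmtRT : Prop := ∃ A x0 : ℕ, ∀ x k z R L : ℕ, x0 ≤ x → 1 ≤ k → 2 ≤ z →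
  (∀ p : ℕ, p.Prime → p ∣ k → p ≤ z) → 1 ≤ L → (k * R) ^ 4 ≤ x →
  ∀ a : ℕ → ℕ, (∀ D ∈ SS z (R + 1), Nat.Coprime (a D) (k * D)) →
  ∑ D ∈ SS z (R + 1), (L : ℝ) ^ D.primeFactors.card *
      |th x (k * D) (a D) - th x k (a D) / (Nat.totient D : ℝ)|
    ≤ x / k * Real.log x ^ (A * (L + 1)) * (1 / z + (x : ℝ) ^ (-(1 / 50) : ℝ))

end Pool.Agent.Helper23.TW
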