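import Pool.Agent.Helper88.CR.GoalsA

/-! # Sums of a fixed character over the primes: statements -/

set_option autoImplicit false

open Finset Filter Topology

open scoped Classical

namespace Pool.Agent.Helper23.TW

open Pool.Agent.Helper88.CR (LL ch)

/-- The sums of `χ(n) Λ(n)/n` are bounded. -/
def StmtMX : Prop := ∀ (q : ℕ) [NeZero q] (χ : DirichletCharacter ℂ q), χ ≠ 1 → ∃ B : ℝ, ∀ N : ℕ,
  ‖∑ n ∈ Icc 1 N, χ n * ((ArithmeticFunction.vonMangoldt n : ℝ) : ℂ) / n‖ ≤ B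

/-- A fixed character is not exceptional. -/
def StmtFX : Prop := ∀ (q : ℕ) [NeZero q] (χ : DirichletCharacter ℂ q), χ ≠ 1 →
  ∀ κ : ℝ, 0 < κ → ∃ z0 : ℕ, ∀ z : ℕ, z0 ≤ z →
    1 / 2 ≤ ‖LL (ch z χ) 0 (1 + ((κ / Real.log z : ℝ) : ℂ))‖

end Pool.Agent.Helper23.TW
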