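import Pool.Agent.Helper23.TW.GoalsM

/-! # Sums of a fixed character over the primes: proof of `StmtMX` -/

set_option autoImplicit false

open Finset Filter Topology

open scoped Classical

namespace Pool.Agent.Helper23.TW

lemma mx_full (q : ℕ) [NeZero q] (f : ZMod q → ℂ) (a : ℕ) :
    ∑ i ∈ range q, f ((a + i : ℕ) : ZMod q) = ∑ x, f x := by
  have hinj : Set.InjOn (fun i : ℕ => ((a + i : ℕ) : ZMod q)) (range q : Set ℕ) := by
    intro i hi j hj h
    simp only [coe_range, Set.mem_Iio] at hi hj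
    have h1 := (ZMod.natCast_eq_natCast_iff _ _ _).1 h
    have h2 : i ≡ j [MOD q] := Nat.ModEq.add_left_cancel' a h1
    exact Nat.ModEq.eq_of_lt_of_lt h2 hi hj
  have himg : (range q).image (fun i : ℕ => ((a + i : ℕ) : ZMod q)) = univ := by
    apply Finset.eq_univ_of_card
    rw [card_image_of_injOn hinj, card_range, ZMod.card]
  rw [← himg, Finset.sum_image hinj]

lemma mx_cs (q : ℕ) [NeZero q] (χ : DirichletCharacter ℂ q) (hχ : χ ≠ 1) (L : ℕ) :
    ∀ a : ℕ, ‖∑ i ∈ range L, χ ((a + i : ℕ) : ZMod q)‖ ≤ q := by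
  induction L using Nat.strong_induction_on with
  | _ L ih =>
    intro a
    rcases le_or_gt L q with h | h
    · calc ‖∑ i ∈ range L, χ ((a + i : ℕ) : ZMod q)‖
          ≤ ∑ i ∈ range L, ‖χ ((a + i : ℕ) : ZMod q)‖ := norm_sum_le _ _
        _ ≤ ∑ i ∈ range L, (1 : ℝ) := sum_le_sum fun i _ => χ.norm_le_one _
        _ = L := by simp
        _ ≤ q := by exact_mod_cast h
    · have hq := NeZero.pos q
      have h1 : L = q + (L - q) := by omega
      have h2 : ∑ i ∈ range L, χ ((a + i : ℕ) : ZMod q)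
          = ∑ i ∈ range (L - q), χ ((a + q + i : ℕ) : ZMod q) := by
        conv_lhs => rw [h1]
        rw [sum_range_add, mx_full q (fun x => χ x) a, MulChar.sum_eq_zero_of_ne_one hχ, zero_add]
        refine sum_congr rfl fun i _ => ?_
        rw [Nat.add_assoc]
      rw [h2]
      exact ih (L - q) (by omega) (a + q)

lemma mx_csI (q : ℕ) [NeZero q] (χ : DirichletCharacter ℂ q) (hχ : χ ≠ 1) (M N : ℕ) :
    ‖∑ n ∈ Ioc M N, χ (n : ZMod q)‖ ≤ q := by
  rcases le_or_gt M N with h | h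
  · have h1 : ∑ n ∈ Ioc M N, χ (n : ZMod q)
        = ∑ i ∈ range (N - M), χ ((M + 1 + i : ℕ) : ZMod q) := by
      have h2 : Ioc M N = Ico (M + 1) (N + 1) := by
        ext n
        simp only [mem_Ioc, mem_Ico]
        omega
      rw [h2, sum_Ico_eq_sum_range]
      have h3 : N + 1 - (M + 1) = N - M := by omega
      rw [h3]
    rw [h1]
    exact mx_cs q χ hχ _ _
  · rw [Ioc_eq_empty (by omega), sum_empty, norm_zero]
    positivity

/-- Abel's inequality. -/
lemma mx_abel (a : ℕ → ℂ) (f : ℕ → ℝ) (M : ℕ) (B : ℝ)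
    (hB : ∀ N, ‖∑ n ∈ Ioc M N, a n‖ ≤ B) (hf : ∀ n, M < n → f (n + 1) ≤ f n)
    (h0 : ∀ n, M < n → 0 ≤ f n) (N : ℕ) :
    ‖∑ n ∈ Ioc M N, a n * (f n : ℂ)‖ ≤ B * f (M + 1) := by
  have hB0 : 0 ≤ B := (norm_nonneg _).trans (hB M)
  have key : ∀ k : ℕ, ‖∑ n ∈ Ioc M (M + 1 + k), a n * (f n : ℂ)
      - (∑ n ∈ Ioc M (M + 1 + k), a n) * (f (M + 1 + k) : ℂ)‖
      ≤ B * (f (M + 1) - f (M + 1 + k)) := by
    intro k
    induction k with
    | zero =>
      rw [Nat.add_zero, Nat.Ioc_succ_singleton, sum_singleton, sum_singleton, sub_self, sub_self,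
        norm_zero, mul_zero]
    | succ k ih =>
      have e : Ioc M (M + 1 + (k + 1)) = insert (M + 1 + (k + 1)) (Ioc M (M + 1 + k)) := by
        ext n
        simp only [mem_Ioc, mem_insert]
        omega
      have hn : M + 1 + (k + 1) ∉ Ioc M (M + 1 + k) := by
        simp only [mem_Ioc]
        omega
      rw [e, sum_insert hn, sum_insert hn]
      have e2 : a (M + 1 + (k + 1)) * (f (M + 1 + (k + 1)) : ℂ)
            + ∑ n ∈ Ioc M (M + 1 + k), a n * (f n : ℂ)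
          - (a (M + 1 + (k + 1)) + ∑ n ∈ Ioc M (M + 1 + k), a n) * (f (M + 1 + (k + 1)) : ℂ)
          = (∑ n ∈ Ioc M (M + 1 + k), a n * (f n : ℂ)
              - (∑ n ∈ Ioc M (M + 1 + k), a n) * (f (M + 1 + k) : ℂ))
            + (∑ n ∈ Ioc M (M + 1 + k), a n) *
              ((f (M + 1 + k) - f (M + 1 + (k + 1)) : ℝ) : ℂ) := by
        push_cast
        ring
      rw [e2]
      have h1 : 0 ≤ f (M + 1 + k) - f (M + 1 + (k + 1)) := by
        have := hf (M + 1 + k) (by omega)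
        have e3 : M + 1 + k + 1 = M + 1 + (k + 1) := by ring
        rw [e3] at this
        linarith
      calc _ ≤ ‖∑ n ∈ Ioc M (M + 1 + k), a n * (f n : ℂ)
              - (∑ n ∈ Ioc M (M + 1 + k), a n) * (f (M + 1 + k) : ℂ)‖
            + ‖(∑ n ∈ Ioc M (M + 1 + k), a n) *
              ((f (M + 1 + k) - f (M + 1 + (k + 1)) : ℝ) : ℂ)‖ := norm_add_le _ _
        _ ≤ B * (f (M + 1) - f (M + 1 + k)) + B * (f (M + 1 + k) - f (M + 1 + (k + 1))) := by
            refine add_le_add ih ?_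
            rw [norm_mul, Complex.norm_real, Real.norm_of_nonneg h1]
            exact mul_le_mul_of_nonneg_right (hB _) h1
        _ = _ := by ring
  rcases le_or_gt N M with h | h
  · rw [Ioc_eq_empty (by omega), sum_empty, norm_zero]
    exact mul_nonneg hB0 (h0 _ (by omega))
  · obtain ⟨k, rfl⟩ : ∃ k, N = M + 1 + k := ⟨N - (M + 1), by omega⟩
    have h1 := key k
    have h2 : 0 ≤ f (M + 1 + k) := h0 _ (by omega)
    calc ‖∑ n ∈ Ioc M (M + 1 + k), a n * (f n : ℂ)‖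
        = ‖(∑ n ∈ Ioc M (M + 1 + k), a n * (f n : ℂ)
      - (∑ n ∈ Ioc M (M + 1 + k), a n) * (f (M + 1 + k) : ℂ))
          + (∑ n ∈ Ioc M (M + 1 + k), a n) * (f (M + 1 + k) : ℂ)‖ := by
          rw [sub_add_cancel]
      _ ≤ B * (f (M + 1) - f (M + 1 + k)) + B * f (M + 1 + k) := by
          refine (norm_add_le _ _).trans (add_le_add h1 ?_)
          rw [norm_mul, Complex.norm_real, Real.norm_of_nonneg h2]
          exact mul_le_mul_of_nonneg_right (hB _) h2
      _ = _ := by ring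

/-- The tail of `L(s, χ)`, `s > 1`. -/
lemma mx_tail (q : ℕ) [NeZero q] (χ : DirichletCharacter ℂ q) (hχ : χ ≠ 1) (N : ℕ) (s : ℝ)
    (hs : 1 < s) :
    ‖LSeries (fun n : ℕ => χ (n : ZMod q)) (s : ℂ)
      - ∑ n ∈ Ioc 0 N, χ (n : ZMod q) * (((n : ℝ) ^ (-s) : ℝ) : ℂ)‖
      ≤ q * ((N + 1 : ℕ) : ℝ) ^ (-s) := by
  have hsum : LSeriesSummable (fun n : ℕ => χ (n : ZMod q)) (s : ℂ) :=
    ZMod.LSeriesSummable_of_one_lt_re (fun x => χ x) (by simpa using hs)
  have hterm : ∀ n : ℕ, n ≠ 0 → LSeries.term (fun n : ℕ => χ (n : ZMod q)) (s : ℂ) n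
      = χ (n : ZMod q) * (((n : ℝ) ^ (-s) : ℝ) : ℂ) := by
    intro n hn
    rw [LSeries.term_of_ne_zero hn, div_eq_mul_inv, Complex.ofReal_cpow (by positivity)]
    rw [← Complex.cpow_neg]
    push_cast
    rfl
  have hlim : Tendsto (fun K : ℕ => ∑ n ∈ range (K + 1),
      LSeries.term (fun n : ℕ => χ (n : ZMod q)) (s : ℂ) n) atTop
      (𝓝 (LSeries (fun n : ℕ => χ (n : ZMod q)) (s : ℂ))) :=
    (hsum.hasSum.tendsto_sum_nat).comp (tendsto_add_atTop_nat 1)
  have hpart : ∀ K : ℕ, ∑ n ∈ range (K + 1), LSeries.term (fun n : ℕ => χ (n : ZMod q)) (s : ℂ) n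
      = ∑ n ∈ Ioc 0 K, χ (n : ZMod q) * (((n : ℝ) ^ (-s) : ℝ) : ℂ) := by
    intro K
    have e : range (K + 1) = insert 0 (Ioc 0 K) := by
      ext n
      simp only [mem_range, mem_insert, mem_Ioc]
      omega
    rw [e, sum_insert (by simp), LSeries.term_zero, zero_add]
    refine sum_congr rfl fun n hn => hterm n ?_
    rw [mem_Ioc] at hn
    omega
  have hlim2 : Tendsto (fun K : ℕ => ‖∑ n ∈ range (K + 1),
      LSeries.term (fun n : ℕ => χ (n : ZMod q)) (s : ℂ) n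
        - ∑ n ∈ Ioc 0 N, χ (n : ZMod q) * (((n : ℝ) ^ (-s) : ℝ) : ℂ)‖) atTop
      (𝓝 ‖LSeries (fun n : ℕ => χ (n : ZMod q)) (s : ℂ)
      - ∑ n ∈ Ioc 0 N, χ (n : ZMod q) * (((n : ℝ) ^ (-s) : ℝ) : ℂ)‖) :=
    (hlim.sub_const _).norm
  refine le_of_tendsto hlim2 ?_
  filter_upwards [eventually_ge_atTop N] with K hK
  rw [hpart K]
  have e : Ioc 0 K = Ioc 0 N ∪ Ioc N K := by
    ext n
    simp only [mem_union, mem_Ioc]
    omega
  have hd : Disjoint (Ioc 0 N) (Ioc N K) := by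
    rw [disjoint_left]
    intro n h1 h2
    simp only [mem_Ioc] at h1 h2
    omega
  rw [e, sum_union hd, add_sub_cancel_left]
  refine mx_abel (fun n : ℕ => χ (n : ZMod q)) (fun n : ℕ => (n : ℝ) ^ (-s)) N q
    (fun K => mx_csI q χ hχ N K) ?_ ?_ K
  · intro n hn
    have hn0 : (0 : ℝ) < n := by exact_mod_cast (by omega : 0 < n)
    apply Real.rpow_le_rpow_of_nonpos hn0 (by push_cast; linarith) (by linarith)
  · intro n _
    positivity

/-- The partial sums of `∑ χ(n)/n`. -/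
lemma mx_one (q : ℕ) [NeZero q] (χ : DirichletCharacter ℂ q) (hχ : χ ≠ 1) (N : ℕ) :
    ‖DirichletCharacter.LFunction χ 1 - ∑ n ∈ Ioc 0 N, χ (n : ZMod q) / (n : ℂ)‖
      ≤ q / ((N + 1 : ℕ) : ℝ) := by
  have hcont : Tendsto (fun s : ℝ => DirichletCharacter.LFunction χ (s : ℂ)) (𝓝[>] 1)
      (𝓝 (DirichletCharacter.LFunction χ 1)) := by
    have h1 : Continuous (fun s : ℝ => DirichletCharacter.LFunction χ (s : ℂ)) :=
      (DirichletCharacter.differentiable_LFunction hχ).continuous.comp Complex.continuous_ofReal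
    have h2 := h1.tendsto 1
    rw [Complex.ofReal_one] at h2
    exact h2.mono_left nhdsWithin_le_nhds
  have hsum : Tendsto (fun s : ℝ => ∑ n ∈ Ioc 0 N,
      χ (n : ZMod q) * (((n : ℝ) ^ (-s) : ℝ) : ℂ)) (𝓝[>] 1)
      (𝓝 (∑ n ∈ Ioc 0 N, χ (n : ZMod q) / (n : ℂ))) := by
    refine tendsto_finsetSum _ fun n hn => ?_
    rw [mem_Ioc] at hn
    have hn0 : (0 : ℝ) < n := by exact_mod_cast (by omega : 0 < n)
    have h1 : Continuous (fun s : ℝ => χ (n : ZMod q) * (((n : ℝ) ^ (-s) : ℝ) : ℂ)) := by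
      refine continuous_const.mul (Complex.continuous_ofReal.comp ?_)
      exact Continuous.rpow continuous_const continuous_neg (fun s => Or.inl hn0.ne')
    have h2 := h1.tendsto 1
    have e : χ (n : ZMod q) * (((n : ℝ) ^ (-(1 : ℝ)) : ℝ) : ℂ) = χ (n : ZMod q) / (n : ℂ) := by
      rw [Real.rpow_neg_one, div_eq_mul_inv]
      push_cast
      rfl
    rw [e] at h2
    exact h2.mono_left nhdsWithin_le_nhds
  have hrhs : Tendsto (fun s : ℝ => (q : ℝ) * ((N + 1 : ℕ) : ℝ) ^ (-s)) (𝓝[>] 1)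
      (𝓝 (q / ((N + 1 : ℕ) : ℝ))) := by
    have hN0 : ((N + 1 : ℕ) : ℝ) ≠ 0 := by positivity
    have h1 : Continuous (fun s : ℝ => (q : ℝ) * ((N + 1 : ℕ) : ℝ) ^ (-s)) :=
      continuous_const.mul (Continuous.rpow continuous_const continuous_neg (fun s => Or.inl hN0))
    have h2 := h1.tendsto 1
    rw [Real.rpow_neg_one, ← div_eq_mul_inv] at h2
    exact h2.mono_left nhdsWithin_le_nhds
  refine le_of_tendsto_of_tendsto (hcont.sub hsum).norm hrhs ?_
  filter_upwards [self_mem_nhdsWithin] with s hs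
  rw [Set.mem_Ioi] at hs
  rw [DirichletCharacter.LFunction_eq_LSeries χ (by simpa using hs)]
  exact mx_tail q χ hχ N s hs

lemma mx_log (q : ℕ) [NeZero q] (χ : DirichletCharacter ℂ q) (hχ : χ ≠ 1) (N : ℕ) :
    ‖∑ n ∈ Ioc 0 N, χ (n : ZMod q) * ((Real.log n / n : ℝ) : ℂ)‖ ≤ 1 + q := by
  have hmono : ∀ n : ℕ, 2 < n → Real.log ((n + 1 : ℕ) : ℝ) / ((n + 1 : ℕ) : ℝ)
      ≤ Real.log n / n := by
    intro n hn
    have h3 : (3 : ℝ) ≤ n := by exact_mod_cast hn
    have he : Real.exp 1 ≤ 3 := by linarith [Real.exp_one_lt_d9]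
    apply Real.log_div_self_antitoneOn
    · change Real.exp 1 ≤ _
      linarith
    · change Real.exp 1 ≤ _
      push_cast
      linarith
    · push_cast
      linarith
  have h3 : ‖∑ n ∈ Ioc 2 N, χ (n : ZMod q) * ((Real.log n / n : ℝ) : ℂ)‖
      ≤ q * (Real.log ((2 + 1 : ℕ) : ℝ) / ((2 + 1 : ℕ) : ℝ)) := by
    refine mx_abel (fun n : ℕ => χ (n : ZMod q)) (fun n : ℕ => Real.log n / n) 2 q
      (fun K => mx_csI q χ hχ 2 K) hmono ?_ N
    intro n _
    exact div_nonneg (Real.log_natCast_nonneg n) (by positivity)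
  have h4 : Real.log ((2 + 1 : ℕ) : ℝ) / ((2 + 1 : ℕ) : ℝ) ≤ 1 := by
    rw [div_le_one (by positivity)]
    have := Real.log_le_sub_one_of_pos (show (0 : ℝ) < ((2 + 1 : ℕ) : ℝ) by positivity)
    linarith
  have hq0 : (0 : ℝ) ≤ q := by positivity
  have h5 : (q : ℝ) * (Real.log ((2 + 1 : ℕ) : ℝ) / ((2 + 1 : ℕ) : ℝ)) ≤ q := by
    calc _ ≤ (q : ℝ) * 1 := mul_le_mul_of_nonneg_left h4 hq0
      _ = q := mul_one _
  have h6 : ∀ K : ℕ, K ≤ 2 →
      ‖∑ n ∈ Ioc 0 K, χ (n : ZMod q) * ((Real.log n / n : ℝ) : ℂ)‖ ≤ 1 := by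
    intro K hK
    have hn : ∀ n ∈ Ioc 0 K, ‖χ (n : ZMod q) * ((Real.log n / n : ℝ) : ℂ)‖ ≤ 1 / 2 := by
      intro n hn
      rw [mem_Ioc] at hn
      have h7 : n = 1 ∨ n = 2 := by omega
      have h8 : 0 ≤ Real.log n / n := div_nonneg (Real.log_natCast_nonneg n) (by positivity)
      rw [norm_mul, Complex.norm_real, Real.norm_of_nonneg h8]
      calc ‖χ (n : ZMod q)‖ * (Real.log n / n) ≤ 1 * (Real.log n / n) :=
            mul_le_mul_of_nonneg_right (χ.norm_le_one _) h8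
        _ = Real.log n / n := one_mul _
        _ ≤ 1 / 2 := by
          rcases h7 with rfl | rfl
          · simp
          · push_cast
            have := Real.log_two_lt_d9
            linarith
    calc ‖∑ n ∈ Ioc 0 K, χ (n : ZMod q) * ((Real.log n / n : ℝ) : ℂ)‖
        ≤ ∑ n ∈ Ioc 0 K, ‖χ (n : ZMod q) * ((Real.log n / n : ℝ) : ℂ)‖ := norm_sum_le _ _
      _ ≤ ∑ n ∈ Ioc 0 K, (1 / 2 : ℝ) := sum_le_sum hn
      _ = K * (1 / 2) := by simp
      _ ≤ 1 := by
        have : (K : ℝ) ≤ 2 := by exact_mod_cast hK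
        linarith
  rcases le_or_gt N 2 with h | h
  · have := h6 N h
    linarith
  · have e : Ioc 0 N = Ioc 0 2 ∪ Ioc 2 N := by
      ext n
      simp only [mem_union, mem_Ioc]
      omega
    have hd : Disjoint (Ioc 0 2) (Ioc 2 N) := by
      rw [disjoint_left]
      intro n h1 h2
      simp only [mem_Ioc] at h1 h2
      omega
    rw [e, sum_union hd]
    refine (norm_add_le _ _).trans ?_
    have := h6 2 le_rfl
    linarith

/-- `χ(n) Λ(n)/n` -/
noncomputable def mxF {q : ℕ} (χ : DirichletCharacter ℂ q) : ArithmeticFunction ℂ :=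
  ⟨fun n => χ (n : ZMod q) * ((ArithmeticFunction.vonMangoldt n : ℝ) : ℂ) / n, by simp⟩

/-- `χ(n)/n` -/
noncomputable def mxG {q : ℕ} (χ : DirichletCharacter ℂ q) : ArithmeticFunction ℂ :=
  ⟨fun n => χ (n : ZMod q) / n, by simp⟩

lemma mx_mul {q : ℕ} (χ : DirichletCharacter ℂ q) (n : ℕ) (hn : n ≠ 0) :
    (mxF χ * mxG χ) n = χ (n : ZMod q) * ((Real.log n / n : ℝ) : ℂ) := by
  rw [ArithmeticFunction.mul_apply]
  have h1 : ∀ x ∈ n.divisorsAntidiagonal, mxF χ x.1 * mxG χ x.2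
      = χ (n : ZMod q) / n * ((ArithmeticFunction.vonMangoldt x.1 : ℝ) : ℂ) := by
    intro x hx
    rw [Nat.mem_divisorsAntidiagonal] at hx
    have h2 : (n : ZMod q) = (x.1 : ZMod q) * (x.2 : ZMod q) := by
      rw [← hx.1]
      push_cast
      rfl
    have h3 : (n : ℂ) = (x.1 : ℂ) * (x.2 : ℂ) := by
      rw [← hx.1]
      push_cast
      rfl
    simp only [mxF, mxG, ArithmeticFunction.coe_mk]
    rw [h2, h3, map_mul]
    ring
  rw [sum_congr rfl h1, ← mul_sum, Nat.sum_divisorsAntidiagonal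
    (fun d _ => ((ArithmeticFunction.vonMangoldt d : ℝ) : ℂ)), ← Complex.ofReal_sum,
    ArithmeticFunction.vonMangoldt_sum]
  push_cast
  ring

theorem mx : StmtMX := by
  intro q _ χ hχ
  set L := DirichletCharacter.LFunction χ 1 with hL
  have hL0 : L ≠ 0 := DirichletCharacter.LFunction_apply_one_ne_zero hχ
  refine ⟨(1 + q + q * (Real.log 4 + 4)) / ‖L‖, ?_⟩
  intro N
  have hLpos : 0 < ‖L‖ := norm_pos_iff.mpr hL0
  rw [le_div_iff₀ hLpos]
  have hI : Icc 1 N = Ioc 0 N := by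
    ext n
    simp only [mem_Icc, mem_Ioc]
    omega
  rw [hI]
  have hF : ∑ n ∈ Ioc 0 N, χ (n : ZMod q) * ((ArithmeticFunction.vonMangoldt n : ℝ) : ℂ) / n
      = ∑ n ∈ Ioc 0 N, mxF χ n := rfl
  rw [hF]
  have h1 := ArithmeticFunction.sum_Ioc_mul_eq_sum_sum (mxF χ) (mxG χ) N
  have h2 : ∑ n ∈ Ioc 0 N, (mxF χ * mxG χ) n
      = ∑ n ∈ Ioc 0 N, χ (n : ZMod q) * ((Real.log n / n : ℝ) : ℂ) := by
    refine sum_congr rfl fun n hn => mx_mul χ n ?_
    rw [mem_Ioc] at hn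
    omega
  have h3 := mx_log q χ hχ N
  rw [← h2, h1] at h3
  have h4 : (∑ n ∈ Ioc 0 N, mxF χ n) * L
      = ∑ n ∈ Ioc 0 N, mxF χ n * ∑ m ∈ Ioc 0 (N / n), mxG χ m
        + ∑ n ∈ Ioc 0 N, mxF χ n * (L - ∑ m ∈ Ioc 0 (N / n), mxG χ m) := by
    rw [← sum_add_distrib, sum_mul]
    refine sum_congr rfl fun n _ => ?_
    ring
  have h5 : ‖∑ n ∈ Ioc 0 N, mxF χ n * (L - ∑ m ∈ Ioc 0 (N / n), mxG χ m)‖
      ≤ q * (Real.log 4 + 4) := by
    rcases Nat.eq_zero_or_pos N with h0 | h0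
    · rw [h0]
      simp only [Ioc_self, sum_empty, norm_zero]
      have : 0 ≤ Real.log 4 := Real.log_nonneg (by norm_num)
      positivity
    have hN0 : (0 : ℝ) < N := by exact_mod_cast h0
    have h6 : ∀ n ∈ Ioc 0 N, ‖mxF χ n * (L - ∑ m ∈ Ioc 0 (N / n), mxG χ m)‖
        ≤ q / N * ArithmeticFunction.vonMangoldt n := by
      intro n hn
      rw [mem_Ioc] at hn
      have hn0 : (0 : ℝ) < n := by exact_mod_cast hn.1
      have h7 : ‖L - ∑ m ∈ Ioc 0 (N / n), mxG χ m‖ ≤ q / ((N / n + 1 : ℕ) : ℝ) :=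
        mx_one q χ hχ (N / n)
      have h8 : (N : ℝ) / n ≤ ((N / n + 1 : ℕ) : ℝ) := by
        rw [div_le_iff₀ hn0]
        have h9 : N < n * (N / n + 1) := Nat.lt_mul_div_succ N hn.1
        have h10 : (N : ℝ) ≤ ((n * (N / n + 1) : ℕ) : ℝ) := by exact_mod_cast h9.le
        rw [Nat.cast_mul] at h10
        linarith
      have h11 : (0 : ℝ) < (N : ℝ) / n := by positivity
      have hv : 0 ≤ ArithmeticFunction.vonMangoldt n := ArithmeticFunction.vonMangoldt_nonneg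
      have h12 : ‖mxF χ n‖ ≤ ArithmeticFunction.vonMangoldt n / n := by
        simp only [mxF, ArithmeticFunction.coe_mk]
        rw [norm_div, norm_mul, Complex.norm_real, Real.norm_of_nonneg hv, Complex.norm_natCast]
        refine div_le_div_of_nonneg_right ?_ hn0.le
        calc _ ≤ 1 * ArithmeticFunction.vonMangoldt n :=
              mul_le_mul_of_nonneg_right (χ.norm_le_one _) hv
          _ = _ := one_mul _
      rw [norm_mul]
      calc ‖mxF χ n‖ * ‖L - ∑ m ∈ Ioc 0 (N / n), mxG χ m‖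
          ≤ (ArithmeticFunction.vonMangoldt n / n) * (q / ((N / n + 1 : ℕ) : ℝ)) :=
            mul_le_mul h12 h7 (norm_nonneg _) (by positivity)
        _ ≤ (ArithmeticFunction.vonMangoldt n / n) * (q / ((N : ℝ) / n)) := by
            refine mul_le_mul_of_nonneg_left ?_ (by positivity)
            exact div_le_div_of_nonneg_left (by positivity) h11 h8
        _ = _ := by
            field_simp
    have h13 : ∑ n ∈ Ioc 0 N, ArithmeticFunction.vonMangoldt n ≤ (Real.log 4 + 4) * N := by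
      have h14 := Chebyshev.psi_le_const_mul_self (x := (N : ℝ)) (by positivity)
      unfold Chebyshev.psi at h14
      rw [Nat.floor_natCast] at h14
      exact h14
    calc ‖∑ n ∈ Ioc 0 N, mxF χ n * (L - ∑ m ∈ Ioc 0 (N / n), mxG χ m)‖
        ≤ ∑ n ∈ Ioc 0 N, ‖mxF χ n * (L - ∑ m ∈ Ioc 0 (N / n), mxG χ m)‖ := norm_sum_le _ _
      _ ≤ ∑ n ∈ Ioc 0 N, q / N * ArithmeticFunction.vonMangoldt n := sum_le_sum h6
      _ = q / N * ∑ n ∈ Ioc 0 N, ArithmeticFunction.vonMangoldt n := by rw [mul_sum]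
      _ ≤ q / N * ((Real.log 4 + 4) * N) := mul_le_mul_of_nonneg_left h13 (by positivity)
      _ = q * (Real.log 4 + 4) := by
        field_simp
  rw [← norm_mul, h4]
  exact (norm_add_le _ _).trans (add_le_add h3 h5)

end Pool.Agent.Helper23.TW
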