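import Pool.Agent.Helper23.TW.Goals
import Pool.Agent.Helper88.CG.TE

/-! # Relative equidistribution of the primes modulo `k D`: proof -/

set_option autoImplicit false

open Finset Filter Topology

open scoped Classical

namespace Pool.Agent.Helper23.TW

open Pool.Agent.Helper88.PP (pr SS)
open Pool.Agent.Helper88.CG (th te_main te_mert)

lemma rt_size (A n : ℕ) (C : ℝ) (hC : 0 < C) (hn : 32 * C ≤ n) :
    ∀ l : ℝ, 3 ≤ l → ∀ L : ℕ, 1 ≤ L →
      Real.exp (32 * C * L * Real.log l) * (L * (l ^ A * (3 * l))) ≤ l ^ ((n + A + 3) * (L + 1)) := by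
  intro l hl L hL
  have hl0 : 0 < l := by linarith
  have hl1 : 1 ≤ l := by linarith
  have h1 : Real.exp (32 * C * L * Real.log l) ≤ l ^ (n * L) := by
    rw [← Real.rpow_natCast, Real.rpow_def_of_pos hl0]
    apply Real.exp_le_exp.mpr
    push_cast
    have : 0 ≤ Real.log l := Real.log_nonneg hl1
    have h2 : 32 * C * L * Real.log l ≤ n * L * Real.log l := by gcongr
    linarith
  have h2 : (L : ℝ) ≤ l ^ L := by
    have h3 : (L : ℝ) < 2 ^ L := by exact_mod_cast Nat.lt_two_pow_self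
    have h4 : (2 : ℝ) ^ L ≤ l ^ L := pow_le_pow_left₀ (by norm_num) (by linarith) L
    linarith
  have h3 : 3 * l ≤ l ^ 2 := by nlinarith
  calc Real.exp (32 * C * L * Real.log l) * (L * (l ^ A * (3 * l)))
      ≤ l ^ (n * L) * (l ^ L * (l ^ A * l ^ 2)) := by gcongr
    _ = l ^ (n * L + (L + (A + 2))) := by rw [pow_add, pow_add, pow_add]
    _ ≤ l ^ ((n + A + 3) * (L + 1)) := by
        apply pow_le_pow_right₀ hl1
        nlinarith [Nat.zero_le (A * L), Nat.zero_le n]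

theorem rt (h : Pool.Agent.Helper88.CG.StmtRB) : StmtRT := by
  obtain ⟨A, x0, hRB⟩ := h
  obtain ⟨C, hC0, hC⟩ := Pool.Agent.Helper31.LG.mertens
  obtain ⟨n, hn⟩ := exists_nat_ge (32 * C)
  have hev : ∀ᶠ x : ℕ in atTop, (4 : ℝ) ≤ Real.log x ∧ (4 : ℝ) ≤ Real.log (Real.log x) := by
    have h1 : Tendsto (fun x : ℕ => Real.log (x : ℝ)) atTop atTop :=
      Real.tendsto_log_atTop.comp tendsto_natCast_atTop_atTop
    have h2 : Tendsto (fun x : ℕ => Real.log (Real.log (x : ℝ))) atTop atTop :=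
      Real.tendsto_log_atTop.comp h1
    exact (h1.eventually_ge_atTop 4).and (h2.eventually_ge_atTop 4)
  obtain ⟨x1, hx1⟩ := eventually_atTop.mp hev
  refine ⟨n + A + 3, max (max x0 x1) 16, ?_⟩
  intro x k z R L hx hk hz hkp hL hR a ha
  have hxx0 : x0 ≤ x := (le_max_left _ _).trans ((le_max_left _ _).trans hx)
  obtain ⟨hlx, hllx⟩ := hx1 x ((le_max_right _ _).trans ((le_max_left _ _).trans hx))
  have hx16 : 16 ≤ x := (le_max_right _ _).trans hx
  have hxpos : (0 : ℝ) < x := by exact_mod_cast (by omega : 0 < x)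
  set l := Real.log x with hl
  set ll := Real.log l with hll
  have hmain := te_main A x0 hRB x k z R L hxx0 (by omega) hk (by omega) hkp hR a ha
  refine hmain.trans ?_
  have hk0 : (0 : ℝ) < k := by exact_mod_cast hk
  have hRx : R ≤ x := by
    refine le_trans ?_ hR
    calc R ≤ k * R := Nat.le_mul_of_pos_left R (by omega)
      _ ≤ (k * R) ^ 4 := Nat.le_self_pow (by norm_num) _
  have hlog2 : (1 / 2 : ℝ) ≤ Real.log 2 := by linarith [Real.log_two_gt_d9]
  -- the exponent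
  set J := Nat.log 2 (Nat.log 2 x + 1) + 1 with hJ
  have hRJ : R ≤ z ^ (2 ^ J) := by
    have h1 : Nat.log 2 x + 1 < 2 ^ J := Nat.lt_pow_succ_log_self (by norm_num) _
    have h2 : x < 2 ^ (Nat.log 2 x + 1) := Nat.lt_pow_succ_log_self (by norm_num) _
    calc R ≤ x := hRx
      _ ≤ 2 ^ (Nat.log 2 x + 1) := h2.le
      _ ≤ 2 ^ (2 ^ J) := Nat.pow_le_pow_right (by norm_num) h1.le
      _ ≤ z ^ (2 ^ J) := Nat.pow_le_pow_left hz _
  have hlg : (Nat.log 2 x : ℝ) ≤ 2 * l := by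
    have h1 : 2 ^ (Nat.log 2 x) ≤ x := Nat.pow_log_le_self 2 (by omega)
    have h2 : ((2 : ℝ)) ^ (Nat.log 2 x) ≤ x := by exact_mod_cast h1
    have h3 : (Nat.log 2 x : ℝ) * Real.log 2 ≤ l := by
      rw [← Real.log_pow]
      exact Real.log_le_log (by positivity) h2
    have h6 : (0 : ℝ) ≤ (Nat.log 2 x : ℝ) := by positivity
    nlinarith
  have hJll : (J : ℝ) ≤ 4 * ll := by
    have h1 : 2 ^ (Nat.log 2 (Nat.log 2 x + 1)) ≤ Nat.log 2 x + 1 :=
      Nat.pow_log_le_self 2 (by omega)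
    have h2 : ((2 : ℝ)) ^ (Nat.log 2 (Nat.log 2 x + 1)) ≤ Nat.log 2 x + 1 := by exact_mod_cast h1
    have h3 : ((2 : ℝ)) ^ (Nat.log 2 (Nat.log 2 x + 1)) ≤ l ^ 2 := by
      refine h2.trans ?_
      nlinarith
    have h4 : (Nat.log 2 (Nat.log 2 x + 1) : ℝ) * Real.log 2 ≤ 2 * ll := by
      have h5 : Real.log ((2 : ℝ) ^ (Nat.log 2 (Nat.log 2 x + 1))) ≤ Real.log (l ^ 2) :=
        Real.log_le_log (by positivity) h3
      rw [Real.log_pow, Real.log_pow] at h5
      push_cast at h5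
      exact h5
    have h5 : (0.69 : ℝ) ≤ Real.log 2 := by linarith [Real.log_two_gt_d9]
    have h6 : (0 : ℝ) ≤ (Nat.log 2 (Nat.log 2 x + 1) : ℝ) := by positivity
    have h7 : (Nat.log 2 (Nat.log 2 x + 1) : ℝ) * 0.69 ≤ 2 * ll := by nlinarith
    rw [hJ]
    push_cast
    linarith
  -- the product
  have hgp : ∀ p ∈ pr z R, (0 : ℝ) < (p : ℝ) - 1 ∧ 1 / ((p : ℝ) - 1) ≤ 2 * (1 / (p : ℝ)) := by
    intro p hp
    simp only [pr, mem_filter, mem_Ioc] at hp
    have h2 : (2 : ℝ) ≤ p := by exact_mod_cast hp.2.two_le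
    refine ⟨by linarith, ?_⟩
    rw [mul_one_div, div_le_div_iff₀ (by linarith) (by linarith)]
    linarith
  have hprod : ∏ p ∈ pr z R, (1 + (L : ℝ) / ((p : ℝ) - 1)) ≤ Real.exp (16 * C * L * ll) := by
    calc ∏ p ∈ pr z R, (1 + (L : ℝ) / ((p : ℝ) - 1))
        ≤ ∏ p ∈ pr z R, Real.exp ((L : ℝ) / ((p : ℝ) - 1)) := by
          refine prod_le_prod (fun p hp => ?_) (fun p hp => ?_)
          · have := (hgp p hp).1
            positivity
          · rw [add_comm]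
            exact Real.add_one_le_exp _
      _ = Real.exp (∑ p ∈ pr z R, (L : ℝ) / ((p : ℝ) - 1)) := by rw [Real.exp_sum]
      _ ≤ _ := by
          apply Real.exp_le_exp.mpr
          calc ∑ p ∈ pr z R, (L : ℝ) / ((p : ℝ) - 1)
              ≤ ∑ p ∈ pr z R, (2 * L) * (1 / (p : ℝ)) := by
                refine sum_le_sum fun p hp => ?_
                obtain ⟨h1, h2⟩ := hgp p hp
                calc (L : ℝ) / ((p : ℝ) - 1) = L * (1 / ((p : ℝ) - 1)) := by ring
                  _ ≤ L * (2 * (1 / (p : ℝ))) := by gcongr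
                  _ = _ := by ring
            _ ≤ ∑ p ∈ pr z (z ^ (2 ^ J)), (2 * L) * (1 / (p : ℝ)) := by
                refine sum_le_sum_of_subset_of_nonneg ?_ (fun p _ _ => by positivity)
                intro p hp
                simp only [pr, mem_filter, mem_Ioc] at hp ⊢
                exact ⟨⟨hp.1.1, hp.1.2.trans hRJ⟩, hp.2⟩
            _ = (2 * L) * ∑ p ∈ pr z (z ^ (2 ^ J)), 1 / (p : ℝ) := by rw [mul_sum]
            _ ≤ (2 * L) * (2 * C * J) :=
                mul_le_mul_of_nonneg_left (te_mert C hC z hz J) (by positivity)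
            _ ≤ (2 * L) * (2 * C * (4 * ll)) := by gcongr
            _ = _ := by ring
  have hprod0 : 0 ≤ ∏ p ∈ pr z R, (1 + (L : ℝ) / ((p : ℝ) - 1)) := by
    refine prod_nonneg fun p hp => ?_
    have := (hgp p hp).1
    positivity
  have hprod2 : (∏ p ∈ pr z R, (1 + (L : ℝ) / ((p : ℝ) - 1))) ^ 2
      ≤ Real.exp (32 * C * L * ll) := by
    calc (∏ p ∈ pr z R, (1 + (L : ℝ) / ((p : ℝ) - 1))) ^ 2
        ≤ (Real.exp (16 * C * L * ll)) ^ 2 := pow_le_pow_left₀ hprod0 hprod 2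
      _ = Real.exp (32 * C * L * ll) := by
          rw [← Real.exp_nat_mul]
          congr 1
          push_cast
          ring
  -- the logarithm of R
  have hI : ((Nat.log 2 R + 1 : ℕ) : ℝ) ≤ 3 * l := by
    have h1 : Nat.log 2 R ≤ Nat.log 2 x := Nat.log_mono_right hRx
    have h2 : (Nat.log 2 R : ℝ) ≤ Nat.log 2 x := by exact_mod_cast h1
    push_cast
    linarith
  have hX0 : (0 : ℝ) ≤ (x : ℝ) ^ (-(1 / 50) : ℝ) := Real.rpow_nonneg hxpos.le _
  have hz0 : (0 : ℝ) < z := by exact_mod_cast (by omega : 0 < z)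
  have hbr : 2 / (z : ℝ) + ((Nat.log 2 R + 1 : ℕ) : ℝ) * (x : ℝ) ^ (-(1 / 50) : ℝ)
      ≤ 3 * l * (1 / z + (x : ℝ) ^ (-(1 / 50) : ℝ)) := by
    have h1 : 2 / (z : ℝ) ≤ 3 * l * (1 / z) := by
      rw [div_eq_mul_one_div]
      have : 0 ≤ 1 / (z : ℝ) := by positivity
      nlinarith
    have h2 : ((Nat.log 2 R + 1 : ℕ) : ℝ) * (x : ℝ) ^ (-(1 / 50) : ℝ)
        ≤ 3 * l * (x : ℝ) ^ (-(1 / 50) : ℝ) := mul_le_mul_of_nonneg_right hI hX0
    linarith
  have hl0 : 0 ≤ l := by linarith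
  have hs := rt_size A n C hC0 hn l (by linarith) L hL
  have hbr0 : 0 ≤ 1 / (z : ℝ) + (x : ℝ) ^ (-(1 / 50) : ℝ) := by positivity
  calc (∏ p ∈ pr z R, (1 + (L : ℝ) / ((p : ℝ) - 1))) ^ 2 * (L * (x / k * l ^ A *
        (2 / z + ((Nat.log 2 R + 1 : ℕ) : ℝ) * (x : ℝ) ^ (-(1 / 50) : ℝ))))
      ≤ Real.exp (32 * C * L * ll) * (L * (x / k * l ^ A *
          (3 * l * (1 / z + (x : ℝ) ^ (-(1 / 50) : ℝ))))) := by
        gcongr
    _ = (Real.exp (32 * C * L * ll) * (L * (l ^ A * (3 * l)))) *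
          (x / k * (1 / z + (x : ℝ) ^ (-(1 / 50) : ℝ))) := by ring
    _ ≤ l ^ ((n + A + 3) * (L + 1)) * (x / k * (1 / z + (x : ℝ) ^ (-(1 / 50) : ℝ))) :=
        mul_le_mul_of_nonneg_right hs (by positivity)
    _ = _ := by ring

end Pool.Agent.Helper23.TW
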